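import Pool.Agent.helper44.Wild.Final1
import Pool.Agent.helper44.Wild.Bridge
import Pool.Agent.helper44.Wild.Sharp
import Pool.Agent.helper44.Wild.Max

/-!
# MP_11236d_an: the number of critical values of wild rational functions
-/

namespace Pool.Agent.Results.MP_11236d_an.CriticalValues

open WildRat

/-- A wild rational function of degree `n ≥ 4` has at most `n` critical values; a rational
function of degree `n ≥ 2` with a nontrivial identity `A(X) = A(Y)` in rational functions has at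
most `n` critical values; and `n` is attained for every even `n`. -/
theorem result :
    (∀ A : RF, 2 ≤ A.n →
      (A.GenusZero → A.RatSol) ∧ ((A.GenusZero ∨ A.GenusOne) → A.Wild)) ∧
    (∀ A : RF, 4 ≤ A.n → A.Wild →
      ∀ T : Finset P1, (∀ c ∈ T, ∃ z, A.val z = c ∧ 2 ≤ A.e z) → T.card ≤ A.n) ∧
    (∀ A : RF, 2 ≤ A.n → A.RatSol →
      ∀ T : Finset P1, (∀ c ∈ T, ∃ z, A.val z = c ∧ 2 ≤ A.e z) → T.card ≤ A.n) ∧
    (∀ m : ℕ, 1 ≤ m → ∃ A : RF, A.n = 2 * m ∧ A.RatSol ∧
      ∃ T : Finset P1, T.card = 2 * m ∧ ∀ c ∈ T, ∃ z, A.val z = c ∧ 2 ≤ A.e z) :=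
  ⟨fun A hn => ⟨A.ratSol_of_genusZero (by omega), A.wild_of_genus (by omega)⟩,
    fun A hn hw T hT => critical_max A hn T hT hw,
    fun A hn hr T hT => (critical_criterion A hn T hT).2 hr, exists_sharp⟩

end Pool.Agent.Results.MP_11236d_an.CriticalValues
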