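import Pool.Agent.helper44.Wild.Final1
import Pool.Agent.helper44.Wild.Bridge

/-!
# MP_11236d_an: a linear programming criterion for tameness
-/

namespace Pool.Agent.Results.MP_11236d_an.LinearProgram

open WildRat

/-- The linear programming criterion and its consequence for lonely values. -/
theorem result (A : RF) (hn : 2 ≤ A.n) :
    ((A.GenusZero → A.RatSol) ∧ ((A.GenusZero ∨ A.GenusOne) → A.Wild)) ∧
    (∀ lam : ℝ, 0 ≤ lam → ∀ u : P1 → ℝ,
      (∀ z w, z ≠ w → A.val z = A.val w → 1 / (Nat.lcm (A.e z) (A.e w) : ℝ) ≤ u z + u w) →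
      (∀ z, 1 - lam ≤ 2 * A.e z * u z) →
      {z | 1 - 2 * A.e z * u z ≠ 0}.Finite →
      (A.Wild → ∑ᶠ z, (1 - 2 * A.e z * u z) ≤ 2 + 2 * lam) ∧
      (A.RatSol → ∑ᶠ z, (1 - 2 * A.e z * u z) < 2 + 2 * lam)) ∧
    (∀ T : Finset P1,
      (∀ c ∈ T, ∃ z, A.val z = c ∧ ∀ z', z' ≠ z → A.val z' = c → ¬ A.e z ∣ A.e z') →
      (A.Wild → T.card ≤ 4) ∧ (A.RatSol → T.card ≤ 3)) :=
  ⟨⟨A.ratSol_of_genusZero (by omega), A.wild_of_genus (by omega)⟩,
    fun lam hlam u h1 h2 h3 => lp_criterion A hn lam hlam u h1 h2 h3,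
    fun T hT => lonely_criterion A hn T hT⟩

end Pool.Agent.Results.MP_11236d_an.LinearProgram
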