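import Pool.Agent.helper44.Wild.Final1
import Pool.Agent.helper44.Wild.Bridge

/-!
# MP_11236d_an: wild rational functions with at most one ramified point in each fibre
-/

namespace Pool.Agent.Results.MP_11236d_an.OneRamifiedPoint

open WildRat

/-- Classification of the wild rational functions with at most one ramified point in each fibre. -/
theorem result (A : RF) (hn : 2 ≤ A.n)
    (hU : ∀ z w, z ≠ w → A.val z = A.val w → A.e z = 1 ∨ A.e w = 1) :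
    ((A.GenusZero ∨ A.GenusOne) → A.Wild) ∧
    (A.Wild ↔
      (∃ z w, z ≠ w ∧ 2 * A.n - 1 ≤ A.e z + A.e w) ∨
      A.n = 3 ∨
      (A.n = 4 ∧ ∃ z, A.e z = 4) ∨
      (A.n = 4 ∧ ∃ z1 z2 z3, z1 ≠ z2 ∧ z1 ≠ z3 ∧ z2 ≠ z3 ∧
        A.e z1 = 3 ∧ A.e z2 = 3 ∧ A.e z3 = 3) ∨
      (A.n = 5 ∧ ∃ z1 z2 z3, z1 ≠ z2 ∧ z1 ≠ z3 ∧ z2 ≠ z3 ∧
        A.e z1 = 5 ∧ A.e z2 = 3 ∧ A.e z3 = 3)) :=
  ⟨A.wild_of_genus (by omega), classU A hn hU⟩

end Pool.Agent.Results.MP_11236d_an.OneRamifiedPoint
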