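import Pool.Agent.helper44.TA.Star

/-!
# MP_11236d_an: classification of wild rational functions up to bounded degree

`A` is wild if some factor of `C_A` has genus zero or one (`A.GenusZero ∨ A.GenusOne`).

The list (`Listed C`):

* `GalLe C`: the Galois closure of `ℂ(x)` over `ℂ(C(x))` has genus at most one, that is, the sum of
  `1 - 1 / o_c` over the values `c` is at most two, `o_c` the least common multiple of the indices over
  `c` (up to Moebius maps: `x ^ n`, Chebyshev polynomials, the Klein functions and their relatives,
  Lattes maps), or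
* `TypAB C`: a totally ramified point and a fibre with two points (up to Moebius maps
  `x ^ a * (1 - x) ^ b`), or
* one of the 40 ramification types of the degrees `4, .., 10` in `sporK`.

**Theorem.** A rational function of degree at least two is wild if and only if it is `B ∘ C` with `C` of
degree at least two in the list or exceptional.  The exceptional functions are wild functions of
degree at most the explicit constant `2 ^ 2 ^ 140`, all of whose right factors of degree between two
and `deg C - 1` are tame, without coprime index, not of prime degree, with reducible `C_C`, and of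
degree less than `2 ^ 2 ^ 100` if indecomposable.  If `A` itself is wild and has a coprime index, or
prime degree, or an irreducible curve `C_A`, or is indecomposable of degree at least `2 ^ 2 ^ 100`,
then the right factor `C` can be chosen in the list.
-/

namespace Pool.Agent.Results.MP_11236d_an.WildClassification

open WildRat WildV WildN WildH WildLA WildLD
open WildJ (LoneC)
open WildT (tp)

/-- The explicit list. -/
def Listed (C : RF) : Prop := GalLe C ∨ TypAB C ∨ ∃ τ ∈ sporK, HasTy C τ

/-- The exceptional functions: wild functions of bounded degree. -/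
structure Exceptional (C : RF) : Prop where
  wild : C.GenusZero ∨ C.GenusOne
  bound : C.n ≤ tp 140
  tame : ∀ D F : RF, C.IsComp D F → 2 ≤ F.n → F.n < C.n → ¬ (F.GenusZero ∨ F.GenusOne)
  coprime : ¬ ∃ z, LoneC C z
  prime : ¬ C.n.Prime
  curve : ¬ IrrCurve C
  indec : Indec C → C.n < twoPow 100

/-- **Classification up to bounded degree.** -/
theorem result (A : RF) (hn : 2 ≤ A.n) :
    (A.GenusZero ∨ A.GenusOne ↔
      ∃ B C : RF, A.IsComp B C ∧ 2 ≤ C.n ∧ (Listed C ∨ Exceptional C)) ∧
    (((∃ z, LoneC A z) ∨ A.n.Prime ∨ IrrCurve A ∨ (Indec A ∧ twoPow 100 ≤ A.n)) →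
      A.GenusZero ∨ A.GenusOne → ∃ B C : RF, A.IsComp B C ∧ 2 ≤ C.n ∧ Listed C) := by
  have hn1 : 1 ≤ A.n := by omega
  refine ⟨?_, fun hc hw => cls_hard A hn hc ((WildG.wild_iff_genus hn1).2 hw)⟩
  rw [← WildG.wild_iff_genus hn1, WildTA.star_fine A hn]
  refine exists_congr fun B => exists_congr fun C => and_congr_right fun _ =>
    and_congr_right fun h2 => or_congr Iff.rfl ?_
  constructor
  · intro h
    refine ⟨(WildG.wild_iff_genus (by omega)).1 h.wild, h.le, fun D F h3 h4 h5 h6 =>
      h.min D F h3 h4 h5 ((WildG.wild_iff_genus (by omega)).2 h6), fun h3 => h.cls (Or.inl h3),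
      fun h3 => h.cls (Or.inr (Or.inl h3)), fun h3 => h.cls (Or.inr (Or.inr (Or.inl h3))),
      fun h3 => ?_⟩
    by_contra h4
    exact h.cls (Or.inr (Or.inr (Or.inr ⟨h3, not_lt.1 h4⟩)))
  · intro h
    refine ⟨(WildG.wild_iff_genus (by omega)).2 h.wild, h.bound, ?_, fun D F h3 h4 h5 h6 =>
      h.tame D F h3 h4 h5 ((WildG.wild_iff_genus (by omega)).1 h6)⟩
    rintro (h3 | h3 | h3 | ⟨h3, h4⟩)
    · exact h.coprime h3
    · exact h.prime h3
    · exact h.curve h3
    · exact absurd h4 (not_le.2 (h.indec h3))

end Pool.Agent.Results.MP_11236d_an.WildClassification
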